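import Pool.Agent.H51.MF.Stmts

/-! # LIN3: in codimension one the functional is determined up to a factor -/

set_option autoImplicit false

namespace Pool.Agent.H51.MF

open Module

/-- the rational functional -/
noncomputable def LIN3_phi {n : ℕ} (θ : Fin n → ℤ) : (Fin n → ℚ) →ₗ[ℚ] ℚ :=
  ∑ i, (θ i : ℚ) • LinearMap.proj i

/-- the cast -/
def LIN3_c {n : ℕ} (w : Fin n → ℤ) : Fin n → ℚ := fun i => (w i : ℚ)

theorem LIN3_apply {n : ℕ} (θ w : Fin n → ℤ) : LIN3_phi θ (LIN3_c w) = ((θ ⬝ᵥ w : ℤ) : ℚ) := by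
  unfold LIN3_phi LIN3_c dotProduct
  rw [LinearMap.sum_apply]
  push_cast
  refine Finset.sum_congr rfl fun i _ => ?_
  rfl

theorem LIN3_eq {n : ℕ} (D T : Set (Fin n → ℤ)) (θ : Fin n → ℤ)
    (hT : ∀ w ∈ T, w ∈ D ∨ -w ∈ D) (h0 : ∀ w ∈ T, θ ⬝ᵥ w = 0) (hD : NZ D θ)
    (hr : rk D ≤ rk T + 1) :
    Submodule.span ℚ (LIN3_c '' D) ⊓ LinearMap.ker (LIN3_phi θ) =
      Submodule.span ℚ (LIN3_c '' T) := by
  have h1 : Submodule.span ℚ (LIN3_c '' T) ≤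
      Submodule.span ℚ (LIN3_c '' D) ⊓ LinearMap.ker (LIN3_phi θ) := by
    refine Submodule.span_le.2 ?_
    rintro _ ⟨w, hw, rfl⟩
    refine Submodule.mem_inf.2 ⟨?_, ?_⟩
    · rcases hT w hw with h | h
      · exact Submodule.subset_span ⟨w, h, rfl⟩
      · have h2 : LIN3_c w = -(LIN3_c (-w)) := by
          funext i
          simp [LIN3_c]
        rw [h2]
        exact Submodule.neg_mem _ (Submodule.subset_span ⟨-w, h, rfl⟩)
    · rw [LinearMap.mem_ker, LIN3_apply, h0 w hw, Int.cast_zero]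
  refine (Submodule.eq_of_le_of_finrank_le h1 ?_).symm
  have h2 : Submodule.span ℚ (LIN3_c '' D) ⊓ LinearMap.ker (LIN3_phi θ) <
      Submodule.span ℚ (LIN3_c '' D) := by
    refine lt_of_le_of_ne inf_le_left fun h => ?_
    obtain ⟨w, hw, hne⟩ := hD
    have h3 : LIN3_c w ∈ Submodule.span ℚ (LIN3_c '' D) := Submodule.subset_span ⟨w, hw, rfl⟩
    rw [← h] at h3
    have h4 := (Submodule.mem_inf.1 h3).2
    rw [LinearMap.mem_ker, LIN3_apply] at h4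
    exact hne (by exact_mod_cast h4)
  have h3 := Submodule.finrank_lt_finrank_of_lt h2
  have h4 : finrank ℚ (Submodule.span ℚ (LIN3_c '' D)) ≤
      finrank ℚ (Submodule.span ℚ (LIN3_c '' T)) + 1 := hr
  omega

theorem s_LIN3 : S_LIN3 := by
  intro n D T θ θ' hT h0 h0' hD hD' hr
  have e1 := LIN3_eq D T θ hT h0 hD hr
  have e2 := LIN3_eq D T θ' hT h0' hD' hr
  obtain ⟨w0, hw0, hne⟩ := hD
  have m0 : LIN3_c w0 ∈ Submodule.span ℚ (LIN3_c '' D) := Submodule.subset_span ⟨w0, hw0, rfl⟩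
  have hne' : θ' ⬝ᵥ w0 ≠ 0 := by
    intro h
    have h1 : LIN3_c w0 ∈ Submodule.span ℚ (LIN3_c '' D) ⊓ LinearMap.ker (LIN3_phi θ') := by
      refine Submodule.mem_inf.2 ⟨m0, ?_⟩
      rw [LinearMap.mem_ker, LIN3_apply, h, Int.cast_zero]
    rw [e2, ← e1] at h1
    have h4 := (Submodule.mem_inf.1 h1).2
    rw [LinearMap.mem_ker, LIN3_apply] at h4
    exact hne (by exact_mod_cast h4)
  have key : ∀ w ∈ D, (θ ⬝ᵥ w0) * (θ' ⬝ᵥ w) = (θ ⬝ᵥ w) * (θ' ⬝ᵥ w0) := by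
    intro w hw
    have mw : LIN3_c w ∈ Submodule.span ℚ (LIN3_c '' D) := Submodule.subset_span ⟨w, hw, rfl⟩
    have h1 : ((θ ⬝ᵥ w0 : ℤ) : ℚ) • LIN3_c w - ((θ ⬝ᵥ w : ℤ) : ℚ) • LIN3_c w0 ∈
        Submodule.span ℚ (LIN3_c '' D) ⊓ LinearMap.ker (LIN3_phi θ) := by
      refine Submodule.mem_inf.2 ⟨Submodule.sub_mem _ (Submodule.smul_mem _ _ mw)
        (Submodule.smul_mem _ _ m0), ?_⟩
      rw [LinearMap.mem_ker, map_sub, map_smul, map_smul, LIN3_apply, LIN3_apply, smul_eq_mul,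
        smul_eq_mul]
      ring
    rw [e1, ← e2] at h1
    have h4 := (Submodule.mem_inf.1 h1).2
    rw [LinearMap.mem_ker, map_sub, map_smul, map_smul, LIN3_apply, LIN3_apply, smul_eq_mul,
      smul_eq_mul, sub_eq_zero] at h4
    exact_mod_cast h4
  rcases lt_or_gt_of_ne hne with hlt | hgt
  · refine ⟨-(θ' ⬝ᵥ w0), (θ ⬝ᵥ w0).natAbs, neg_ne_zero.2 hne', Int.natAbs_pos.2 hne,
      fun w hw => ?_⟩
    have h1 := key w hw
    have h2 : (((θ ⬝ᵥ w0).natAbs : ℕ) : ℤ) = -(θ ⬝ᵥ w0) := by omega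
    rw [h2]
    linarith
  · refine ⟨θ' ⬝ᵥ w0, (θ ⬝ᵥ w0).natAbs, hne', Int.natAbs_pos.2 hne, fun w hw => ?_⟩
    have h1 := key w hw
    have h2 : (((θ ⬝ᵥ w0).natAbs : ℕ) : ℤ) = θ ⬝ᵥ w0 := by omega
    rw [h2]
    linarith

end Pool.Agent.H51.MF
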