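import Pool.Agent.H51.MF.Stmts

/-! # LIN4: large multiples -/

set_option autoImplicit false

namespace Pool.Agent.H51.MF

theorem s_LIN4 : S_LIN4 := by
  classical
  intro n V θ η hV h1 h2
  refine ⟨∑ w ∈ hV.toFinset, (η ⬝ᵥ w).natAbs, fun m hm w hw => ?_⟩
  rw [add_dotProduct, smul_dotProduct, smul_eq_mul]
  have h3 := h1 w hw
  rcases eq_or_lt_of_le h3 with h4 | h4
  · have h5 := h2 w hw h4.symm
    rw [← h4, mul_zero, zero_add]
    exact h5
  · have h5 : (η ⬝ᵥ w).natAbs ≤ m := by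
      refine le_trans ?_ hm
      exact Finset.single_le_sum (f := fun w : Fin n → ℤ => (η ⬝ᵥ w).natAbs)
        (fun _ _ => Nat.zero_le _) (hV.mem_toFinset.2 hw)
    have h6 : -(m : ℤ) ≤ η ⬝ᵥ w := by omega
    have h7 : (m : ℤ) * 1 ≤ (m : ℤ) * (θ ⬝ᵥ w) :=
      mul_le_mul_of_nonneg_left (by omega) (by positivity)
    linarith

end Pool.Agent.H51.MF
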