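import Pool.Agent.H51.MF.Base

/-! # LSUB: the largest submodule in the class `TT` -/

set_option linter.style.haveILetI false
set_option autoImplicit false

namespace Pool.Agent.H51.MF

open Module Pool.Agent.H51.T2

universe u v

theorem LSUB_sup {K : Type v} [Field K] {A : Type u} [Ring A] [Algebra K A] (f : TC K A)
    (Y : FM K A) (U U' : Submodule A Y) (h : TT f.f (Y.sub U)) (h' : TT f.f (Y.sub U')) :
    TT f.f (Y.sub (U ⊔ U')) := by
  have h1 : TT f.f (U × U') := by
    intro k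
    obtain ⟨l, hl⟩ := h (LinearMap.fst A U U' ∘ₗ k)
    obtain ⟨l', hl'⟩ := h' (LinearMap.snd A U U' ∘ₗ k)
    refine ⟨l.prod l', ?_⟩
    refine LinearMap.ext fun x => Prod.ext ?_ ?_
    · exact LinearMap.congr_fun hl x
    · exact LinearMap.congr_fun hl' x
  let π : (U × U') →ₗ[A] (U ⊔ U' : Submodule A Y) :=
    LinearMap.coprod (Submodule.inclusion le_sup_left) (Submodule.inclusion le_sup_right)
  refine h1.surj (π := π) ?_
  rintro ⟨y, hy⟩
  obtain ⟨a, ha, b, hb, rfl⟩ := Submodule.mem_sup.1 hy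
  exact ⟨(⟨a, ha⟩, ⟨b, hb⟩), Subtype.ext rfl⟩

theorem s_LSUB (K : Type v) [Field K] (A : Type u) [Ring A] [Algebra K A] : S_LSUB K A := by
  classical
  intro f Y
  let φ : Submodule A Y → ℕ := fun U => finrank K Y - finrank K (Y.sub U)
  have hex : ∃ n, ∃ U : Submodule A Y, TT f.f (Y.sub U) ∧ φ U = n :=
    ⟨_, ⊥, (inW_bot (g := f) Y).1, rfl⟩
  obtain ⟨U, hU, hφ⟩ := Nat.find_spec hex
  refine ⟨U, hU, fun U' hU' => ?_⟩
  have h1 := LSUB_sup f Y U U' hU hU'
  have h2 := Nat.find_min' hex ⟨U ⊔ U', h1, rfl⟩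
  rw [← hφ] at h2
  have h3 : finrank K (Y.sub (U ⊔ U')) ≤ finrank K Y :=
    Submodule.finrank_le ((U ⊔ U').restrictScalars K)
  have h4 : finrank K (Y.sub U) ≤ finrank K Y := Submodule.finrank_le (U.restrictScalars K)
  have h5 : finrank K (Y.sub (U ⊔ U')) ≤ finrank K (Y.sub U) := by
    have h6 : finrank K Y - finrank K (Y.sub U) ≤ finrank K Y - finrank K (Y.sub (U ⊔ U')) := h2
    revert h3 h4 h6
    generalize finrank K (Y.sub U) = a
    generalize finrank K (Y.sub (U ⊔ U')) = b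
    generalize finrank K Y = c
    intro h3 h4 h6
    omega
  have h6 : U.restrictScalars K = (U ⊔ U').restrictScalars K := by
    refine Submodule.eq_of_le_of_finrank_le ?_ h5
    intro x hx
    exact (le_sup_left : U ≤ U ⊔ U') hx
  intro x hx
  have h7 : x ∈ (U ⊔ U').restrictScalars K := (le_sup_right : U' ≤ U ⊔ U') hx
  rw [← h6] at h7
  exact h7

end Pool.Agent.H51.MF
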