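import Pool.Agent.H51.MF.Base

/-! # NAK: a functional killed by the endomorphisms which are not bijective -/

set_option linter.style.haveILetI false
set_option autoImplicit false

namespace Pool.Agent.H51.MF

open Module Pool.Agent.H51.T2

universe u v

variable {K : Type v} [Field K] {A : Type u} [Ring A] [Algebra K A]

/-- precomposition with `s` -/
noncomputable def NAK_pc (g : TC K A) (X : FM K A) (s : g.P →ₗ[A] g.P) :
    (g.P →ₗ[A] X) →ₗ[K] (g.P →ₗ[A] X) := (compB K g.P g.P X).flip s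

/-- the endomorphisms of `g` -/
def NAK_end (g : TC K A) : Submodule K ((g.P →ₗ[A] g.P) × (g.Q →ₗ[A] g.Q)) where
  carrier := {p | g.f ∘ₗ p.1 = p.2 ∘ₗ g.f}
  add_mem' := by
    rintro ⟨a, b⟩ ⟨a', b'⟩ h h'
    simp only [Set.mem_ofPred_eq, Prod.mk_add_mk] at h h' ⊢
    rw [LinearMap.comp_add, LinearMap.add_comp, h, h']
  zero_mem' := by
    simp only [Set.mem_ofPred_eq, Prod.fst_zero, Prod.snd_zero]
    rw [LinearMap.comp_zero, LinearMap.zero_comp]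
  smul_mem' := by
    rintro c ⟨a, b⟩ h
    simp only [Set.mem_ofPred_eq, Prod.smul_mk] at h ⊢
    ext x
    have h1 := LinearMap.congr_fun h x
    simp only [LinearMap.comp_apply, LinearMap.smul_apply] at h1 ⊢
    rw [← h1]
    exact LinearMap.map_smul_of_tower g.f c (a x)

/-- the orbit map -/
noncomputable def NAK_orb (g : TC K A) (X : FM K A) (ξ : (g.P →ₗ[A] X) →ₗ[K] K) :
    ((g.P →ₗ[A] g.P) × (g.Q →ₗ[A] g.Q)) →ₗ[K] ((g.P →ₗ[A] X) →ₗ[K] K) :=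
  (LinearMap.compr₂ (compB K g.P g.P X) ξ).flip ∘ₗ LinearMap.fst K _ _

theorem NAK_orb_apply (g : TC K A) (X : FM K A) (ξ : (g.P →ₗ[A] X) →ₗ[K] K)
    (p : (g.P →ₗ[A] g.P) × (g.Q →ₗ[A] g.Q)) (z : g.P →ₗ[A] X) :
    NAK_orb g X ξ p z = ξ (z ∘ₗ p.1) := rfl

theorem s_NAK (K : Type v) [Field K] (A : Type u) [Ring A] [Algebra K A] : S_NAK K A := by
  classical
  intro g X hloc hTT
  haveI i1 : FiniteDimensional K (g.P →ₗ[A] X) := finite_hom
  haveI i2 : FiniteDimensional K (g.P →ₗ[A] g.P) := finite_hom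
  haveI i3 : FiniteDimensional K (g.Q →ₗ[A] g.Q) := finite_hom
  -- a functional
  have h1 : LinearMap.range (pre K g.f X) < ⊤ := by
    refine lt_top_iff_ne_top.2 fun h => hTT ?_
    rw [tt_iff K]
    exact LinearMap.range_eq_top.1 h
  obtain ⟨ξ₀, hξ₀, hle⟩ := Submodule.exists_le_ker_of_lt_top _ h1
  let R : ((g.P →ₗ[A] X) →ₗ[K] K) → Submodule K ((g.P →ₗ[A] X) →ₗ[K] K) := fun ξ =>
    (NAK_end g).map (NAK_orb g X ξ)
  have hex : ∃ n, ∃ ξ : (g.P →ₗ[A] X) →ₗ[K] K, ξ ≠ 0 ∧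
      (∀ l : g.Q →ₗ[A] X, ξ (l ∘ₗ g.f) = 0) ∧ finrank K (R ξ) = n :=
    ⟨_, ξ₀, hξ₀, fun l => hle ⟨l, rfl⟩, rfl⟩
  obtain ⟨ξ, hξ, hξl, hd⟩ := Nat.find_spec hex
  refine ⟨ξ, hξ, hξl, fun s t hst hbij => ?_⟩
  by_contra hne
  push Not at hne
  obtain ⟨z₀, hz₀⟩ := hne
  let ξ' : (g.P →ₗ[A] X) →ₗ[K] K := NAK_orb g X ξ (s, t)
  have hξ' : ξ' ≠ 0 := fun h => hz₀ (LinearMap.congr_fun h z₀)
  have hξ'l : ∀ l : g.Q →ₗ[A] X, ξ' (l ∘ₗ g.f) = 0 := by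
    intro l
    show ξ ((l ∘ₗ g.f) ∘ₗ s) = 0
    rw [LinearMap.comp_assoc, hst, ← LinearMap.comp_assoc]
    exact hξl _
  have h2 : R ξ' ≤ R ξ := by
    rintro _ ⟨⟨s', t'⟩, hs', rfl⟩
    have hs'' : g.f ∘ₗ s' = t' ∘ₗ g.f := hs'
    refine ⟨(s' ∘ₗ s, t' ∘ₗ t), ?_, ?_⟩
    · show g.f ∘ₗ (s' ∘ₗ s) = (t' ∘ₗ t) ∘ₗ g.f
      rw [← LinearMap.comp_assoc, hs'', LinearMap.comp_assoc, hst, LinearMap.comp_assoc]
    · rfl
  have h3 := Nat.find_min' hex ⟨ξ', hξ', hξ'l, rfl⟩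
  rw [← hd] at h3
  have h4 : R ξ' = R ξ := Submodule.eq_of_le_of_finrank_le h2 h3
  have h5 : ξ ∈ R ξ' := by
    rw [h4]
    refine ⟨(LinearMap.id, LinearMap.id), ?_, rfl⟩
    show g.f ∘ₗ LinearMap.id = LinearMap.id ∘ₗ g.f
    rw [LinearMap.comp_id, LinearMap.id_comp]
  obtain ⟨⟨s', t'⟩, hs', hξeq⟩ := h5
  have hs'' : g.f ∘ₗ s' = t' ∘ₗ g.f := hs'
  have hrep : ∀ z, ξ (z ∘ₗ (s' ∘ₗ s)) = ξ z := fun z => LinearMap.congr_fun hξeq z
  have hend : g.f ∘ₗ (s' ∘ₗ s) = (t' ∘ₗ t) ∘ₗ g.f := by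
    rw [← LinearMap.comp_assoc, hs'', LinearMap.comp_assoc, hst, LinearMap.comp_assoc]
  rcases hloc (s' ∘ₗ s) (t' ∘ₗ t) hend with ⟨h6, h7⟩ | ⟨m, hm, -⟩
  · apply hbij
    have i4 : Function.Injective s := Function.Injective.of_comp (f := s') h6.1
    have i5 : Function.Injective t := Function.Injective.of_comp (f := t') h7.1
    have i6 : Function.Surjective s :=
      (LinearMap.injective_iff_surjective (f := s.restrictScalars K)).1 i4
    have i7 : Function.Surjective t :=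
      (LinearMap.injective_iff_surjective (f := t.restrictScalars K)).1 i5
    exact ⟨⟨i4, i6⟩, ⟨i5, i7⟩⟩
  · have h6 : ∀ (m : ℕ) (z : g.P →ₗ[A] X), ξ (z ∘ₗ ((s' ∘ₗ s) ^ m)) = ξ z := by
      intro m
      induction m with
      | zero => intro z; rfl
      | succ m ih =>
        intro z
        rw [pow_succ, Module.End.mul_eq_comp, ← LinearMap.comp_assoc, hrep, ih]
    apply hξ
    refine LinearMap.ext fun z => ?_
    rw [← h6 m z, hm, LinearMap.comp_zero, map_zero, LinearMap.zero_apply]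

end Pool.Agent.H51.MF
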