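import Pool.Agent.H51.MF.Base

/-! # PO: the universal extension -/

set_option linter.style.haveILetI false
set_option autoImplicit false

namespace Pool.Agent.H51.MF

open Module Pool.Agent.H51.T2

universe u v

section gen

variable {A : Type*} [Ring A]
variable {P Q X P' Q' : Type*} [AddCommGroup P] [Module A P] [AddCommGroup Q] [Module A Q]
  [AddCommGroup X] [Module A X] [AddCommGroup P'] [Module A P'] [AddCommGroup Q'] [Module A Q']

/-- the sum map `P ^ k → X` -/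
noncomputable def PO_p {k : ℕ} (b : Fin k → (P →ₗ[A] X)) : (Fin k → P) →ₗ[A] X :=
  ∑ i, b i ∘ₗ LinearMap.proj i

theorem PO_p_apply {k : ℕ} (b : Fin k → (P →ₗ[A] X)) (y : Fin k → P) :
    PO_p b y = ∑ i, b i (y i) := by
  unfold PO_p
  rw [LinearMap.sum_apply]
  rfl

/-- the relation map -/
noncomputable def PO_r {k : ℕ} (b : Fin k → (P →ₗ[A] X)) (g : P →ₗ[A] Q) :
    (Fin k → P) →ₗ[A] X × (Fin k → Q) :=
  LinearMap.prod (-(PO_p b)) (LinearMap.pi fun i => g ∘ₗ LinearMap.proj i)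

theorem PO_r_fst {k : ℕ} (b : Fin k → (P →ₗ[A] X)) (g : P →ₗ[A] Q) (y : Fin k → P) :
    (PO_r b g y).1 = -∑ i, b i (y i) := by
  show -(PO_p b y) = _
  rw [PO_p_apply]

theorem PO_r_snd {k : ℕ} (b : Fin k → (P →ₗ[A] X)) (g : P →ₗ[A] Q) (y : Fin k → P) (i : Fin k) :
    (PO_r b g y).2 i = g (y i) := rfl

/-- the relation in the quotient -/
theorem PO_rel {k : ℕ} (b : Fin k → (P →ₗ[A] X)) (g : P →ₗ[A] Q) (y : Fin k → P) :
    (LinearMap.range (PO_r b g)).mkQ (∑ i, b i (y i), 0) =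
      (LinearMap.range (PO_r b g)).mkQ (0, fun i => g (y i)) := by
  symm
  rw [Submodule.mkQ_apply, Submodule.mkQ_apply, Submodule.Quotient.eq]
  refine ⟨y, ?_⟩
  refine Prod.ext ?_ ?_
  · rw [PO_r_fst]
    show _ = (0 : X) - ∑ i, b i (y i)
    rw [zero_sub]
  · funext i
    rw [PO_r_snd]
    show _ = g (y i) - (0 : Q)
    rw [sub_zero]

end gen

theorem s_PO (K : Type v) [Field K] (A : Type u) [Ring A] [Algebra K A] : S_PO K A := by
  classical
  intro g₂ X hrig
  haveI i1 : FiniteDimensional K (g₂.P →ₗ[A] X) := finite_hom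
  let k := finrank K (g₂.P →ₗ[A] X)
  let b : Basis (Fin k) K (g₂.P →ₗ[A] X) := Module.finBasis K (g₂.P →ₗ[A] X)
  let R : Submodule A (X × (Fin k → g₂.Q)) := LinearMap.range (PO_r (fun i => b i) g₂.f)
  let X' : FM K A := (X.prod (g₂.Q.pow k)).quot R
  let π : (X × (Fin k → g₂.Q)) →ₗ[A] X' := R.mkQ
  have hπ : Function.Surjective π := Submodule.mkQ_surjective R
  let ι : X →ₗ[A] X' := π ∘ₗ LinearMap.inl A X (Fin k → g₂.Q)
  let j : (Fin k → g₂.Q) →ₗ[A] X' := π ∘ₗ LinearMap.inr A X (Fin k → g₂.Q)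
  have hsplit : ∀ (x : X) (q : Fin k → g₂.Q), π (x, q) = ι x + j q := by
    intro x q
    show π (x, q) = π (x, 0) + π (0, q)
    rw [← map_add, Prod.mk_add_mk, add_zero, zero_add]
  have hrel : ∀ y : Fin k → g₂.P, ι (∑ i, b i (y i)) = j (fun i => g₂.f (y i)) := fun y =>
    PO_rel (fun i => b i) g₂.f y
  -- every map `P₂ → X` factors, after `ι`, through `g₂`
  have hfac : ∀ φ : g₂.P →ₗ[A] X, ∃ l : g₂.Q →ₗ[A] X', ι ∘ₗ φ = l ∘ₗ g₂.f := by
    intro φ
    refine ⟨j ∘ₗ LinearMap.pi fun i => (b.repr φ i) • LinearMap.id, ?_⟩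
    ext x
    have h1 : φ x = ∑ i, b i ((b.repr φ i) • x) := by
      conv_lhs => rw [← b.sum_repr φ]
      rw [LinearMap.sum_apply]
      refine Finset.sum_congr rfl fun i _ => ?_
      rw [LinearMap.smul_apply]
      exact (LinearMap.map_smul_of_tower (b i) _ x).symm
    show ι (φ x) = j (fun i => (b.repr φ i) • g₂.f x)
    rw [h1, hrel]
    congr 1
    funext i
    exact LinearMap.map_smul_of_tower g₂.f _ x
  -- maps to `Q₂ ^ k` of the form `g₂ s`
  have hgs : ∀ {P₀ : FM K A} (s : Fin k → (P₀ →ₗ[A] g₂.P)), ∃ φ : P₀ →ₗ[A] X,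
      ∀ x, j (fun i => g₂.f (s i x)) = ι (φ x) := by
    intro P₀ s
    refine ⟨∑ i, b i ∘ₗ s i, fun x => ?_⟩
    rw [← hrel, LinearMap.sum_apply]
    rfl
  refine ⟨X', ι, ?_, ?_, ?_, ?_⟩
  · intro κ
    obtain ⟨κ', hκ'⟩ := Module.projective_lifting_property π κ hπ
    choose s t hst using fun i : Fin k => hrig (LinearMap.proj i ∘ₗ LinearMap.snd A _ _ ∘ₗ κ')
    obtain ⟨φ, hφ⟩ := hgs (P₀ := g₂.P) s
    obtain ⟨l₁, hl₁⟩ := hfac (LinearMap.fst A _ _ ∘ₗ κ' + φ)
    refine ⟨l₁ - j ∘ₗ LinearMap.pi t, ?_⟩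
    ext x
    have h1 := LinearMap.congr_fun hκ' x
    have h2 : κ' x = ((κ' x).1, fun i => g₂.f (s i x) - t i (g₂.f x)) := by
      refine Prod.ext rfl (funext fun i => ?_)
      exact LinearMap.congr_fun (hst i) x
    have h3 := LinearMap.congr_fun hl₁ x
    have h4 : j (fun i => g₂.f (s i x) - t i (g₂.f x)) =
        ι (φ x) - j (fun i => t i (g₂.f x)) := by
      rw [← hφ, ← map_sub]
      rfl
    show κ x = l₁ (g₂.f x) - j (fun i => t i (g₂.f x))
    rw [← h1]
    show π (κ' x) = _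
    rw [h2, hsplit, h4]
    have h5 : ι ((κ' x).1) + ι (φ x) = l₁ (g₂.f x) := by
      rw [← map_add]
      exact h3
    rw [← h5]
    abel
  · intro g₁ hg₁ z
    obtain ⟨l, hl⟩ := hg₁ (ι ∘ₗ z)
    obtain ⟨l', hl'⟩ := Module.projective_lifting_property π l hπ
    let κ : g₁.P →ₗ[A] (X × (Fin k → g₂.Q)) := l' ∘ₗ g₁.f - LinearMap.inl A _ _ ∘ₗ z
    have hκ : ∀ x, κ x ∈ R := by
      intro x
      have h1 := LinearMap.congr_fun hl x
      have h2 := LinearMap.congr_fun hl' (g₁.f x)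
      rw [← Submodule.Quotient.mk_eq_zero]
      show π (l' (g₁.f x) - LinearMap.inl A _ _ (z x)) = 0
      rw [map_sub]
      have h3 : π (LinearMap.inl A _ _ (z x)) = l (g₁.f x) := h1
      have h4 : π (l' (g₁.f x)) = l (g₁.f x) := h2
      rw [h3, h4, sub_self]
    obtain ⟨y, hy⟩ := Module.projective_lifting_property
      (PO_r (fun i => b i) g₂.f).rangeRestrict (LinearMap.codRestrict R κ hκ)
      (LinearMap.surjective_rangeRestrict _)
    have hy' : ∀ x, PO_r (fun i => b i) g₂.f (y x) = l' (g₁.f x) - LinearMap.inl A _ _ (z x) :=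
      fun x => congrArg Subtype.val (LinearMap.congr_fun hy x)
    refine ⟨LinearMap.fst A _ _ ∘ₗ l', k, fun i => b i, fun i => LinearMap.proj i ∘ₗ y,
      fun i => LinearMap.proj i ∘ₗ LinearMap.snd A _ _ ∘ₗ l', fun i => ?_, ?_⟩
    · ext x
      have h1 := congrArg (fun p : X × (Fin k → g₂.Q) => p.2 i) (hy' x)
      simp only [PO_r_snd] at h1
      show g₂.f (y x i) = (l' (g₁.f x)).2 i
      rw [h1]
      show (l' (g₁.f x)).2 i - (0 : g₂.Q) = _
      rw [sub_zero]
    · ext x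
      have h1 := congrArg (fun p : X × (Fin k → g₂.Q) => p.1) (hy' x)
      simp only [PO_r_fst] at h1
      have h2 : -∑ i, b i (y x i) = (l' (g₁.f x)).1 - z x := h1
      show z x = (l' (g₁.f x)).1 + (∑ i, b i ∘ₗ (LinearMap.proj i ∘ₗ y)) x
      rw [LinearMap.sum_apply]
      show z x = (l' (g₁.f x)).1 + ∑ i, b i (y x i)
      have h3 : ∑ i, b i (y x i) = z x - (l' (g₁.f x)).1 := by
        rw [← neg_sub, ← h2, neg_neg]
      rw [h3]
      abel
  · intro M hM φ hφ
    have h1 : ∀ x, φ (ι x) = 0 := fun x => LinearMap.congr_fun hφ x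
    have h2 : ∀ i, φ ∘ₗ j ∘ₗ LinearMap.single A (fun _ : Fin k => (g₂.Q : Type u)) i = 0 := by
      intro i
      apply hM
      ext x
      have h3 := hrel (Pi.single i x)
      have h4 : (fun i' => g₂.f ((Pi.single i x : Fin k → g₂.P) i')) = Pi.single i (g₂.f x) := by
        funext i'
        by_cases h : i' = i
        · subst h
          rw [Pi.single_eq_same, Pi.single_eq_same]
        · rw [Pi.single_eq_of_ne h, Pi.single_eq_of_ne h, map_zero]
      rw [h4] at h3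
      show φ (j (Pi.single i (g₂.f x))) = 0
      rw [← h3, h1]
    have h5 : ∀ q, φ (j q) = 0 := by
      intro q
      have h6 : q = ∑ i, Pi.single i (q i) := by
        rw [Finset.univ_sum_single]
      rw [h6, map_sum, map_sum]
      refine Finset.sum_eq_zero fun i _ => ?_
      exact LinearMap.congr_fun (h2 i) (q i)
    refine LinearMap.ext fun w => ?_
    obtain ⟨⟨x, q⟩, rfl⟩ := hπ w
    rw [hsplit, map_add, h1, h5, add_zero, LinearMap.zero_apply]
  · intro f₀ hX hC κ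
    obtain ⟨κ', hκ'⟩ := Module.projective_lifting_property π κ hπ
    let μ : g₂.Q →ₗ[A] g₂.C := (LinearMap.range g₂.f).mkQ
    choose c hc using fun i : Fin k => hC (μ ∘ₗ LinearMap.proj i ∘ₗ LinearMap.snd A _ _ ∘ₗ κ')
    choose c' hc' using fun i : Fin k => Module.projective_lifting_property μ (c i)
      (Submodule.mkQ_surjective _)
    have hmem : ∀ (i : Fin k) (x : f₀.P),
        (LinearMap.proj i ∘ₗ LinearMap.snd A _ _ ∘ₗ κ' - c' i ∘ₗ f₀.f : f₀.P →ₗ[A] g₂.Q) x ∈
          LinearMap.range g₂.f := by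
      intro i x
      rw [← Submodule.Quotient.mk_eq_zero]
      have h1 := LinearMap.congr_fun (hc i) x
      have h2 := LinearMap.congr_fun (hc' i) (f₀.f x)
      have h3 : μ ((κ' x).2 i) = c i (f₀.f x) := h1
      have h4 : μ (c' i (f₀.f x)) = c i (f₀.f x) := h2
      show μ ((κ' x).2 i - c' i (f₀.f x)) = 0
      rw [map_sub, h3, h4, sub_self]
    choose s hs using fun i : Fin k => Module.projective_lifting_property
      g₂.f.rangeRestrict (LinearMap.codRestrict _ _ (hmem i))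
      (LinearMap.surjective_rangeRestrict _)
    have hs' : ∀ i x, g₂.f (s i x) = (κ' x).2 i - c' i (f₀.f x) := fun i x =>
      congrArg Subtype.val (LinearMap.congr_fun (hs i) x)
    obtain ⟨φ, hφ⟩ := hgs (P₀ := f₀.P) s
    obtain ⟨l, hl⟩ := hX (LinearMap.fst A _ _ ∘ₗ κ' + φ)
    refine ⟨ι ∘ₗ l + j ∘ₗ LinearMap.pi c', ?_⟩
    ext x
    have h1 := LinearMap.congr_fun hκ' x
    have h2 := LinearMap.congr_fun hl x
    have h3 : (κ' x).1 + φ x = l (f₀.f x) := h2
    show κ x = ι (l (f₀.f x)) + j (fun i => c' i (f₀.f x))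
    rw [← h1, ← h3, map_add, ← hφ]
    show π (κ' x) = _
    have h4 : (fun i => g₂.f (s i x)) = fun i => (κ' x).2 i - c' i (f₀.f x) :=
      funext fun i => hs' i x
    have h5 : j (fun i => (κ' x).2 i - c' i (f₀.f x)) =
        j ((κ' x).2) - j (fun i => c' i (f₀.f x)) := by
      rw [← map_sub]
      rfl
    have h6 : π (κ' x) = ι (κ' x).1 + j (κ' x).2 := hsplit _ _
    rw [h4, h5, h6]
    abel

end Pool.Agent.H51.MF
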