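import Pool.Agent.H51.MF.Base

/-! # SPL: splitting off a summand -/

set_option linter.style.haveILetI false
set_option autoImplicit false

namespace Pool.Agent.H51.MF

open Module Pool.Agent.H51.T2

universe u v

section lin

variable {A : Type*} [Ring A] {M N : Type*} [AddCommGroup M] [Module A M] [AddCommGroup N]
  [Module A N]

/-- the inverse of `w u` -/
noncomputable def SPL_E (u : M →ₗ[A] N) (w : N →ₗ[A] M) (h : Function.Bijective (w ∘ₗ u)) :
    M →ₗ[A] M := (LinearEquiv.ofBijective (w ∘ₗ u) h).symm.toLinearMap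

theorem SPL_E1 (u : M →ₗ[A] N) (w : N →ₗ[A] M) (h : Function.Bijective (w ∘ₗ u)) (y : M) :
    w (u (SPL_E u w h y)) = y :=
  (LinearEquiv.ofBijective (w ∘ₗ u) h).apply_symm_apply y

theorem SPL_E2 (u : M →ₗ[A] N) (w : N →ₗ[A] M) (h : Function.Bijective (w ∘ₗ u)) (y : M) :
    SPL_E u w h (w (u y)) = y :=
  (LinearEquiv.ofBijective (w ∘ₗ u) h).symm_apply_apply y

theorem SPL_mem (u : M →ₗ[A] N) (w : N →ₗ[A] M) (h : Function.Bijective (w ∘ₗ u)) (x : N) :
    (LinearMap.id - u ∘ₗ SPL_E u w h ∘ₗ w : N →ₗ[A] N) x ∈ LinearMap.ker w := by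
  rw [LinearMap.mem_ker]
  show w (x - u (SPL_E u w h (w x))) = 0
  rw [map_sub, SPL_E1, sub_self]

/-- the decomposition -/
noncomputable def SPL_e (u : M →ₗ[A] N) (w : N →ₗ[A] M) (h : Function.Bijective (w ∘ₗ u)) :
    N ≃ₗ[A] M × LinearMap.ker w :=
  LinearEquiv.ofLinearMap
    (LinearMap.prod (SPL_E u w h ∘ₗ w)
      (LinearMap.codRestrict (LinearMap.ker w)
        (LinearMap.id - u ∘ₗ SPL_E u w h ∘ₗ w) (SPL_mem u w h)))
    (LinearMap.coprod u (LinearMap.ker w).subtype)
    (by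
      refine LinearMap.ext fun p => ?_
      obtain ⟨y, z⟩ := p
      have hz : w (z : N) = 0 := z.2
      have h1 : SPL_E u w h (w (u y + z)) = y := by
        rw [map_add, hz, add_zero, SPL_E2]
      refine Prod.ext h1 (Subtype.ext ?_)
      show (u y + z) - u (SPL_E u w h (w (u y + z))) = z
      rw [h1]
      abel)
    (by
      refine LinearMap.ext fun x => ?_
      show u (SPL_E u w h (w x)) + (x - u (SPL_E u w h (w x))) = x
      abel)

theorem SPL_fst (u : M →ₗ[A] N) (w : N →ₗ[A] M) (h : Function.Bijective (w ∘ₗ u)) (x : N) :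
    (w ∘ₗ u) (SPL_e u w h x).1 = w x := SPL_E1 u w h (w x)

theorem SPL_snd (u : M →ₗ[A] N) (w : N →ₗ[A] M) (h : Function.Bijective (w ∘ₗ u)) (x : N) :
    ((SPL_e u w h x).2 : N) = x - u (SPL_e u w h x).1 := rfl

theorem SPL_proj [Module.Projective A N] (u : M →ₗ[A] N) (w : N →ₗ[A] M)
    (h : Function.Bijective (w ∘ₗ u)) : Module.Projective A (LinearMap.ker w) := by
  refine Module.Projective.of_split (LinearMap.ker w).subtype
    (LinearMap.snd A M (LinearMap.ker w) ∘ₗ (SPL_e u w h).toLinearMap) ?_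
  ext x
  have h1 := SPL_fst u w h (x : N)
  have hx : w (x : N) = 0 := x.2
  rw [hx] at h1
  have h2 : (SPL_e u w h (x : N)).1 = 0 := h.1 (h1.trans (map_zero _).symm)
  have h3 := SPL_snd u w h (x : N)
  rw [h2, map_zero, sub_zero] at h3
  exact h3

end lin

theorem s_SPL (K : Type v) [Field K] (A : Type u) [Ring A] [Algebra K A] : S_SPL K A := by
  intro g₁ g₂ u m w m' h1 h2 h3 h4
  haveI p1 : Module.Projective A (LinearMap.ker w) := SPL_proj u w h3
  haveI p2 : Module.Projective A (LinearMap.ker m') := SPL_proj m m' h4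
  have hr : ∀ x : LinearMap.ker w, (g₂.f ∘ₗ (LinearMap.ker w).subtype) x ∈ LinearMap.ker m' := by
    intro x
    rw [LinearMap.mem_ker]
    have h5 := LinearMap.congr_fun h2 (x : g₂.P)
    simp only [LinearMap.comp_apply] at h5 ⊢
    have hx : w (x : g₂.P) = 0 := x.2
    rw [hx, map_zero] at h5
    exact h5.symm
  let g₃ : TC K A :=
    { P := g₂.P.sub (LinearMap.ker w)
      Q := g₂.Q.sub (LinearMap.ker m')
      hP := p1
      hQ := p2
      f := LinearMap.codRestrict (LinearMap.ker m') (g₂.f ∘ₗ (LinearMap.ker w).subtype) hr }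
  refine ⟨g₃, ⟨SPL_e u w h3, SPL_e m m' h4, ?_⟩, ?_⟩
  · refine LinearMap.ext fun x => ?_
    have h5 : g₁.f (SPL_e u w h3 x).1 = (SPL_e m m' h4 (g₂.f x)).1 := by
      apply h4.1
      rw [SPL_fst]
      have h6 := LinearMap.congr_fun h1 (SPL_e u w h3 x).1
      have h7 := LinearMap.congr_fun h2 (u (SPL_e u w h3 x).1)
      have h8 := SPL_fst u w h3 x
      have h9 := LinearMap.congr_fun h2 x
      simp only [LinearMap.comp_apply] at h6 h7 h8 h9 ⊢
      rw [← h6, ← h7, h8, h9]
    refine Prod.ext h5 (Subtype.ext ?_)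
    show g₂.f ((SPL_e u w h3 x).2 : g₂.P) = ((SPL_e m m' h4 (g₂.f x)).2 : g₂.Q)
    rw [SPL_snd, SPL_snd, map_sub, ← h5]
    have h6 := LinearMap.congr_fun h1 (SPL_e u w h3 x).1
    simp only [LinearMap.comp_apply] at h6
    rw [h6]
  · haveI f1 : FiniteDimensional K (g₂.P.sub (LinearMap.ker w)) := (g₂.P.sub (LinearMap.ker w)).i5
    haveI f2 : FiniteDimensional K (g₂.Q.sub (LinearMap.ker m')) :=
      (g₂.Q.sub (LinearMap.ker m')).i5
    have e1 : finrank K g₂.P = finrank K g₁.P + finrank K (g₂.P.sub (LinearMap.ker w)) := by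
      rw [← Module.finrank_prod]
      exact LinearEquiv.finrank_eq ((SPL_e u w h3).restrictScalars K)
    have e2 : finrank K g₂.Q = finrank K g₁.Q + finrank K (g₂.Q.sub (LinearMap.ker m')) := by
      rw [← Module.finrank_prod]
      exact LinearEquiv.finrank_eq ((SPL_e m m' h4).restrictScalars K)
    show finrank K g₁.P + finrank K g₁.Q + (finrank K (g₂.P.sub (LinearMap.ker w)) +
      finrank K (g₂.Q.sub (LinearMap.ker m'))) = finrank K g₂.P + finrank K g₂.Q
    omega

end Pool.Agent.H51.MF
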